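import Pool.Agent.TH730.UT.Growth

set_option autoImplicit false

/-!
A finitely generated torsion group of polynomial growth has finite image in a unitary group.
-/

namespace Pool.Agent.TH719.ED.H730

open scoped Pointwise

variable {K : Type} [Group K]
variable {E : Type} [NormedAddCommGroup E] [InnerProductSpace ℂ E] [FiniteDimensional ℂ E]

/-- scalar operators -/
def IsScal (f : E →L[ℂ] E) : Prop := ∃ c : ℂ, f = c • (1 : E →L[ℂ] E)

omit [FiniteDimensional ℂ E] in
theorem isScal_one : IsScal (1 : E →L[ℂ] E) := ⟨1, by simp⟩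

omit [FiniteDimensional ℂ E] in
theorem norm_le_one (φ : K →* (E →L[ℂ] E)) (hiso : ∀ g x, ‖φ g x‖ = ‖x‖) (g : K) :
    ‖φ g‖ ≤ 1 :=
  ContinuousLinearMap.opNorm_le_bound _ zero_le_one (fun x => by rw [hiso, one_mul])

theorem trace_ne_zero [Nontrivial E] (f : E →L[ℂ] E) (hf : ‖f - 1‖ < 1) :
    LinearMap.trace ℂ E (f : E →ₗ[ℂ] E) ≠ 0 := by
  have b := stdOrthonormalBasis ℂ E
  rw [LinearMap.trace_eq_sum_inner _ b]
  intro h0
  have h1 : ∀ i, 0 < (inner ℂ (b i) ((f : E →ₗ[ℂ] E) (b i))).re := by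
    intro i
    have e : (f : E →ₗ[ℂ] E) (b i) = b i + (f - 1) (b i) := by simp
    rw [e, inner_add_right, Complex.add_re]
    have h2 : (inner ℂ (b i) (b i)).re = 1 := by
      rw [inner_self_eq_norm_sq_to_K, b.orthonormal.1 i]; simp
    have h3 : |(inner ℂ (b i) ((f - 1) (b i))).re| ≤ ‖f - 1‖ := by
      calc _ ≤ ‖inner ℂ (b i) ((f - 1) (b i))‖ := Complex.abs_re_le_norm _
        _ ≤ ‖b i‖ * ‖(f - 1) (b i)‖ := norm_inner_le_norm _ _
        _ ≤ ‖b i‖ * (‖f - 1‖ * ‖b i‖) := by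
            gcongr; exact ContinuousLinearMap.le_opNorm _ _
        _ = _ := by rw [b.orthonormal.1 i]; ring
    rw [h2]
    have := (abs_le.mp h3).1
    linarith
  have h2 : 0 < (∑ i, inner ℂ (b i) ((f : E →ₗ[ℂ] E) (b i))).re := by
    rw [Complex.re_sum]
    have : Nonempty (Fin (Module.finrank ℂ E)) :=
      Fin.pos_iff_nonempty.mp Module.finrank_pos
    exact Finset.sum_pos (fun i _ => h1 i) Finset.univ_nonempty
  rw [h0] at h2
  simp at h2

theorem comm_scal (φ : K →* (E →L[ℂ] E)) (g h : K) (hh : ‖φ h - 1‖ < 1) [Nontrivial E]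
    (hs : IsScal (φ (g * h * g⁻¹ * h⁻¹))) : φ (g * h * g⁻¹ * h⁻¹) = 1 := by
  obtain ⟨c, hc⟩ := hs
  have e1 : φ (g * h * g⁻¹) = c • φ h := by
    have : g * h * g⁻¹ = (g * h * g⁻¹ * h⁻¹) * h := by group
    rw [this, map_mul, hc, smul_mul_assoc, one_mul]
  have e2 : LinearMap.trace ℂ E (φ (g * h * g⁻¹) : E →ₗ[ℂ] E) =
      LinearMap.trace ℂ E (φ h : E →ₗ[ℂ] E) := by
    have a1 : (φ (g * h * g⁻¹) : E →ₗ[ℂ] E) =
        ((φ (g * h) : E →ₗ[ℂ] E)) * (φ g⁻¹ : E →ₗ[ℂ] E) := by
      rw [map_mul]; rfl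
    have a2 : (φ h : E →ₗ[ℂ] E) =
        (φ g⁻¹ : E →ₗ[ℂ] E) * ((φ (g * h) : E →ₗ[ℂ] E)) := by
      have : h = g⁻¹ * (g * h) := by group
      conv_lhs => rw [this, map_mul]
      rfl
    rw [a1, LinearMap.trace_mul_comm, ← a2]
  have e3 : LinearMap.trace ℂ E (φ (g * h * g⁻¹) : E →ₗ[ℂ] E) =
      c * LinearMap.trace ℂ E (φ h : E →ₗ[ℂ] E) := by
    rw [e1, ContinuousLinearMap.toLinearMap_smul, map_smul, smul_eq_mul]
  have e4 := trace_ne_zero (φ h) hh
  have e5 : c = 1 := by
    have : (c - 1) * LinearMap.trace ℂ E (φ h : E →ₗ[ℂ] E) = 0 := by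
      rw [sub_mul, ← e3, e2]; ring
    rcases mul_eq_zero.mp this with h | h
    · exact sub_eq_zero.mp h
    · exact absurd h e4
  rw [hc, e5, one_smul]

theorem chain_false (φ : K →* (E →L[ℂ] E)) (hiso : ∀ g x, ‖φ g x‖ = ‖x‖) (d : ℕ)
    (hpoly : PolyGrowth K d) (T : Finset K) (h1T : 1 ∈ T) (hinv : ∀ g ∈ T, g⁻¹ ∈ T)
    {ε : ℝ} (hε : 0 < ε) (hNε : 16 * ((4 ^ d + 1 : ℕ) : ℝ) * ε < 1)
    (hT : ∀ g ∈ T, ‖φ g - 1‖ ≤ ε)
    (hB : ∀ h : K, ¬ IsScal (φ h) → ∃ g ∈ T, φ g * φ h ≠ φ h * φ g)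
    (h₀ : K) (hh₀ : h₀ ∈ T) (hns : ¬ IsScal (φ h₀)) : False := by
  have hφ := norm_le_one φ hiso
  have hε1 : 16 * ε < 1 := by
    have : (1 : ℝ) ≤ ((4 ^ d + 1 : ℕ) : ℝ) := by
      have : 1 ≤ 4 ^ d + 1 := Nat.succ_le_succ (Nat.zero_le _)
      exact_mod_cast this
    nlinarith
  have hnt : Nontrivial E := by
    by_contra hE
    rw [not_nontrivial_iff_subsingleton] at hE
    exact hns ⟨1, by ext x; exact Subsingleton.elim _ _⟩
  let P : ℕ → K → Prop := fun i x => x ∈ (T : Set K) ^ (4 ^ i) ∧ ¬ IsScal (φ x) ∧ ‖φ x - 1‖ ≤ ε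
  have step : ∀ i x, P i x → ∃ y, P (i + 1) y ∧ ‖φ y - 1‖ ≤ 2 * ε * ‖φ x - 1‖ := by
    rintro i x ⟨hx1, hx2, hx3⟩
    obtain ⟨g, hg, hgx⟩ := hB x hx2
    have hn : ‖φ (g * x * g⁻¹ * x⁻¹) - 1‖ ≤ 2 * ε * ‖φ x - 1‖ := by
      refine (norm_comm_sub_one φ hφ g x).trans ?_
      gcongr
      exact hT g hg
    refine ⟨g * x * g⁻¹ * x⁻¹, ⟨?_, ?_, ?_⟩, hn⟩
    · have m1 : g ∈ (T : Set K) := hg
      have m2 : g⁻¹ ∈ (T : Set K) := hinv g hg
      have hTinv : (T : Set K)⁻¹ ⊆ T := by
        intro y hy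
        have := hinv _ (Set.mem_inv.mp hy)
        rwa [inv_inv] at this
      have m3 : x⁻¹ ∈ (T : Set K) ^ (4 ^ i) := by
        have : x⁻¹ ∈ ((T : Set K) ^ (4 ^ i))⁻¹ := Set.inv_mem_inv.mpr hx1
        rw [← inv_pow] at this
        exact Set.pow_subset_pow_left hTinv this
      have m4 := Set.mul_mem_mul (Set.mul_mem_mul (Set.mul_mem_mul m1 hx1) m2) m3
      refine Set.pow_subset_pow_right (m := 1 + 4 ^ i + 1 + 4 ^ i) (by exact_mod_cast h1T) ?_ ?_
      · have : 1 ≤ 4 ^ i := Nat.one_le_pow _ _ (by norm_num)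
        rw [pow_succ]; omega
      · rw [pow_add, pow_add, pow_add, pow_one]; exact m4
    · intro hs
      have h1 := comm_scal φ g x (by linarith) hs
      apply hgx
      have h2 : φ (g * x) = φ (x * g) := by
        have : g * x = (g * x * g⁻¹ * x⁻¹) * (x * g) := by group
        rw [this, map_mul, h1, one_mul]
      rwa [map_mul, map_mul] at h2
    · refine hn.trans ?_
      have := norm_nonneg (φ x - 1)
      nlinarith
  choose! F hF1 hF2 using step
  let h : ℕ → K := fun n => Nat.rec h₀ (fun i x => F i x) n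
  have hP : ∀ i, P i (h i) := by
    intro i
    induction i with
    | zero => exact ⟨by simpa [h] using hh₀, hns, hT _ hh₀⟩
    | succ i ih => exact hF1 i (h i) ih
  refine no_chain φ hφ d hpoly T h1T hε hNε h (fun i => (hP i).1) (fun i hi => ?_)
    (hP 0).2.2 (fun i => hF2 i (h i) (hP i))
  apply (hP i).2.1
  rw [hi]
  exact isScal_one

theorem scal_finite (φ : K →* (E →L[ℂ] E)) (T : Finset K)
    (hcl : Subgroup.closure (T : Set K) = ⊤) (htor : ∀ g : K, IsOfFinOrder g)
    (hs : ∀ g ∈ T, IsScal (φ g)) : (Set.range φ).Finite := by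
  classical
  set k : ℕ := ∏ g ∈ T, orderOf g with hk
  have hk0 : 0 < k := Finset.prod_pos (fun g _ => (htor g).orderOf_pos)
  have key : ∀ g : K, ∃ c : ℂ, c ^ k = 1 ∧ φ g = c • (1 : E →L[ℂ] E) := by
    intro g
    have hg : g ∈ Subgroup.closure (T : Set K) := by rw [hcl]; trivial
    induction hg using Subgroup.closure_induction with
    | mem x hx =>
      obtain ⟨c, hc⟩ := hs x hx
      rcases subsingleton_or_nontrivial E with hE | hE
      · exact ⟨1, one_pow _, by ext x; exact Subsingleton.elim _ _⟩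
      · refine ⟨c, ?_, hc⟩
        have h1 : φ (x ^ k) = 1 := by
          have : x ^ k = 1 := orderOf_dvd_iff_pow_eq_one.mp (Finset.dvd_prod_of_mem _ hx)
          rw [this, map_one]
        rw [map_pow, hc, smul_pow, one_pow] at h1
        obtain ⟨v, hv⟩ := exists_ne (0 : E)
        have h2 := congrArg (fun f : E →L[ℂ] E => f v) h1
        simp only [smul_apply, one_apply_eq_self] at h2
        have h3 : (c ^ k - 1) • v = 0 := by rw [sub_smul, h2, one_smul, sub_self]
        rcases smul_eq_zero.mp h3 with h | h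
        · exact sub_eq_zero.mp h
        · exact absurd h hv
    | one => exact ⟨1, one_pow _, by rw [map_one, one_smul]⟩
    | mul x y _ _ hx hy =>
      obtain ⟨c, hc, hc'⟩ := hx
      obtain ⟨e, he, he'⟩ := hy
      exact ⟨c * e, by rw [mul_pow, hc, he, one_mul], by
        rw [map_mul, hc', he', smul_mul_smul_comm, one_mul]⟩
    | inv x _ hx =>
      obtain ⟨c, hc, hc'⟩ := hx
      have hc0 : c ≠ 0 := by
        rintro rfl
        rw [zero_pow hk0.ne'] at hc
        exact zero_ne_one hc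
      refine ⟨c⁻¹, by rw [inv_pow, hc, inv_one], ?_⟩
      have : φ x⁻¹ * (c⁻¹ • φ x) = φ x⁻¹ := by
        rw [hc', smul_smul, inv_mul_cancel₀ hc0, one_smul, mul_one]
      rw [← this, mul_smul_comm, ← map_mul, inv_mul_cancel, map_one]
  have hfin : {c : ℂ | c ^ k = 1}.Finite := by
    refine (Polynomial.nthRoots k (1 : ℂ)).toFinset.finite_toSet.subset ?_
    intro c hc
    simp only [Finset.mem_coe, Multiset.mem_toFinset]
    exact (Polynomial.mem_nthRoots hk0).mpr hc
  refine (hfin.image (fun c : ℂ => c • (1 : E →L[ℂ] E))).subset ?_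
  rintro _ ⟨g, rfl⟩
  obtain ⟨c, hc, hc'⟩ := key g
  exact ⟨c, hc, hc'.symm⟩

/-- restriction to an invariant subspace -/
noncomputable def res (φ : K →* (E →L[ℂ] E)) (W : Submodule ℂ E)
    (hW : ∀ g, ∀ x ∈ W, φ g x ∈ W) : K →* (W →L[ℂ] W) where
  toFun g := ((φ g).comp W.subtypeL).codRestrict W (fun x => hW g x x.2)
  map_one' := by ext x; simp
  map_mul' g h := by
    ext x
    have : φ (g * h) x = φ g (φ h x) := by rw [map_mul]; rfl
    exact this

omit [FiniteDimensional ℂ E] in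
theorem res_apply (φ : K →* (E →L[ℂ] E)) (W : Submodule ℂ E)
    (hW : ∀ g, ∀ x ∈ W, φ g x ∈ W) (g : K) (x : W) : (res φ W hW g x : E) = φ g x := rfl

omit [FiniteDimensional ℂ E] in
theorem inner_map (φ : K →* (E →L[ℂ] E)) (hiso : ∀ g x, ‖φ g x‖ = ‖x‖) (g : K) (x y : E) :
    inner ℂ (φ g x) (φ g y) = inner ℂ x y :=
  LinearIsometry.inner_map_map (⟨(φ g : E →ₗ[ℂ] E), hiso g⟩ : E →ₗᵢ[ℂ] E) x y

theorem reducible (φ : K →* (E →L[ℂ] E)) (hiso : ∀ g x, ‖φ g x‖ = ‖x‖) (W : Submodule ℂ E)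
    (hW : ∀ g, ∀ x ∈ W, φ g x ∈ W)
    (IH : ∀ (V : Submodule ℂ E) (hV : ∀ g, ∀ x ∈ V, φ g x ∈ V),
      (V = W ∨ V = Wᗮ) → (Set.range (res φ V hV)).Finite) : (Set.range φ).Finite := by
  have hW' : ∀ g, ∀ x ∈ Wᗮ, φ g x ∈ Wᗮ := by
    intro g x hx
    rw [Submodule.mem_orthogonal] at hx ⊢
    intro u hu
    have h1 := hx (φ g⁻¹ u) (hW g⁻¹ u hu)
    have h2 := inner_map φ hiso g (φ g⁻¹ u) x
    have h3 : φ g (φ g⁻¹ u) = u := by
      have : φ g (φ g⁻¹ u) = (φ g * φ g⁻¹) u := rfl
      rw [this, ← map_mul, mul_inv_cancel, map_one]; rfl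
    rw [h3] at h2
    rw [h2, h1]
  have f1 := IH W hW (Or.inl rfl)
  have f2 := IH Wᗮ hW' (Or.inr rfl)
  have f3 := f1.prod f2
  let ψ : K → (W →L[ℂ] W) × (Wᗮ →L[ℂ] Wᗮ) := fun g => (res φ W hW g, res φ Wᗮ hW' g)
  have f4 : (Set.range ψ).Finite := by
    refine f3.subset ?_
    rintro _ ⟨g, rfl⟩
    exact ⟨⟨g, rfl⟩, ⟨g, rfl⟩⟩
  have f5 : ∀ g g', ψ g = ψ g' → φ g = φ g' := by
    intro g g' h
    have h1 : res φ W hW g = res φ W hW g' := congrArg Prod.fst h
    have h2 : res φ Wᗮ hW' g = res φ Wᗮ hW' g' := congrArg Prod.snd h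
    ext x
    obtain ⟨y, hy, z, hz, rfl⟩ := W.exists_add_mem_mem_orthogonal x
    rw [map_add, map_add]
    congr 1
    · have := congrArg (fun f : W →L[ℂ] W => (f ⟨y, hy⟩ : E)) h1
      exact this
    · have := congrArg (fun f : Wᗮ →L[ℂ] Wᗮ => (f ⟨z, hz⟩ : E)) h2
      exact this
  have f6 : Set.Finite (Set.range φ) := by
    have : Set.range φ = (fun y => Function.extend ψ φ (fun _ => 1) y) '' Set.range ψ := by
      ext f
      constructor
      · rintro ⟨g, rfl⟩
        refine ⟨ψ g, ⟨g, rfl⟩, ?_⟩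
        exact Function.FactorsThrough.extend_apply (fun a b h => f5 a b h) _ g
      · rintro ⟨_, ⟨g, rfl⟩, rfl⟩
        refine ⟨g, ?_⟩
        exact (Function.FactorsThrough.extend_apply (fun a b h => f5 a b h) _ g).symm
    rw [this]
    exact f4.image _
  exact f6

theorem PolyGrowth.sub {G : Type} [Group G] {d : ℕ} (h : PolyGrowth G d) (H : Subgroup G) :
    PolyGrowth H d := by
  classical
  intro T
  obtain ⟨C, hC⟩ := h (T.image H.subtype)
  refine ⟨C, fun n => le_trans (le_of_eq ?_) (hC n)⟩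
  rw [Finset.coe_image, ← Set.image_pow]
  exact (Set.ncard_image_of_injective _ H.subtype_injective).symm

theorem finite_index (φ : K →* (E →L[ℂ] E)) (hiso : ∀ g x, ‖φ g x‖ = ‖x‖) {ε : ℝ} (hε : 0 < ε) :
    (Subgroup.closure {g : K | ‖φ g - 1‖ < ε}).FiniteIndex := by
  classical
  set H := Subgroup.closure {g : K | ‖φ g - 1‖ < ε} with hH
  have hφ := norm_le_one φ hiso
  have : FiniteDimensional ℂ (E →L[ℂ] E) :=
    LinearEquiv.finiteDimensional (LinearMap.toContinuousLinearMap (𝕜 := ℂ) (E := E) (F' := E))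
  have : ProperSpace (E →L[ℂ] E) := FiniteDimensional.proper ℂ _
  have hb : Bornology.IsBounded (Set.range φ) := by
    refine (Metric.isBounded_closedBall (x := (0 : E →L[ℂ] E)) (r := 1)).subset ?_
    rintro _ ⟨g, rfl⟩
    rw [mem_closedBall_zero_iff]
    exact hφ g
  have htb : TotallyBounded (Set.range φ) :=
    (hb.isCompact_closure.totallyBounded).subset subset_closure
  obtain ⟨t, ht1, ht2, ht3⟩ := Metric.finite_approx_of_totallyBounded htb ε hε
  have hfin : Finite (K ⧸ H) := by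
    choose! f hf using (fun (y : E →L[ℂ] E) (hy : y ∈ t) => (ht1 hy : ∃ g, φ g = y))
    have hsur : ∀ q : K ⧸ H, ∃ y ∈ t, (QuotientGroup.mk (f y) : K ⧸ H) = q := by
      intro q
      obtain ⟨g, rfl⟩ := QuotientGroup.mk_surjective q
      have hg := ht3 ⟨g, rfl⟩
      simp only [Set.mem_iUnion, Metric.mem_ball, exists_prop] at hg
      obtain ⟨y, hy, hgy⟩ := hg
      refine ⟨y, hy, ?_⟩
      rw [QuotientGroup.eq]
      apply Subgroup.subset_closure
      rw [Set.mem_ofPred_eq]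
      have h1 : φ ((f y)⁻¹ * g) - 1 = φ (f y)⁻¹ * (φ g - φ (f y)) := by
        rw [mul_sub, ← map_mul, ← map_mul, inv_mul_cancel, map_one]
      rw [h1]
      calc _ ≤ ‖φ (f y)⁻¹‖ * ‖φ g - φ (f y)‖ := norm_mul_le _ _
        _ ≤ 1 * ‖φ g - φ (f y)‖ := by gcongr; exact hφ _
        _ < ε := by rw [one_mul, hf y hy, ← dist_eq_norm]; exact hgy
    have : (Set.univ : Set (K ⧸ H)) ⊆ (fun y => (QuotientGroup.mk (f y) : K ⧸ H)) '' t := by
      intro q _
      obtain ⟨y, hy, h⟩ := hsur q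
      exact ⟨y, hy, h⟩
    exact Set.finite_univ_iff.mp ((ht2.image _).subset this)
  exact Subgroup.finiteIndex_of_finite_quotient

theorem exists_finset_closure {G : Type} [Group G] (S : Set G)
    [hfg : Group.FG (Subgroup.closure S)] :
    ∃ T : Finset G, (T : Set G) ⊆ S ∧ Subgroup.closure (T : Set G) = Subgroup.closure S := by
  classical
  have h1 : ∀ x ∈ Subgroup.closure S, ∃ T : Finset G, (T : Set G) ⊆ S ∧
      x ∈ Subgroup.closure (T : Set G) := by
    intro x hx
    induction hx using Subgroup.closure_induction with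
    | mem x hx => exact ⟨{x}, by simpa using hx, Subgroup.subset_closure (by simp)⟩
    | one => exact ⟨∅, by simp, one_mem _⟩
    | mul x y _ _ hx hy =>
      obtain ⟨T1, h1, h2⟩ := hx
      obtain ⟨T2, h3, h4⟩ := hy
      refine ⟨T1 ∪ T2, by simp [h1, h3], mul_mem ?_ ?_⟩
      · exact Subgroup.closure_mono (by simp) h2
      · exact Subgroup.closure_mono (by simp) h4
    | inv x _ hx =>
      obtain ⟨T1, h1, h2⟩ := hx
      exact ⟨T1, h1, inv_mem h2⟩
  obtain ⟨B, hB⟩ := (Group.fg_iff_subgroup_fg _).mp hfg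
  choose! T hT1 hT2 using h1
  refine ⟨B.biUnion T, ?_, ?_⟩
  · intro x hx
    simp only [Finset.coe_biUnion, Set.mem_iUnion, Finset.mem_coe, exists_prop] at hx
    obtain ⟨y, hy, hxy⟩ := hx
    have hyS : y ∈ Subgroup.closure S := by
      rw [← hB]; exact Subgroup.subset_closure hy
    exact hT1 y hyS hxy
  · apply le_antisymm
    · rw [Subgroup.closure_le]
      intro x hx
      simp only [Finset.coe_biUnion, Set.mem_iUnion, Finset.mem_coe, exists_prop] at hx
      obtain ⟨y, hy, hxy⟩ := hx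
      have hyS : y ∈ Subgroup.closure S := by
        rw [← hB]; exact Subgroup.subset_closure hy
      exact Subgroup.subset_closure (hT1 y hyS hxy)
    · rw [← hB, Subgroup.closure_le]
      intro y hy
      have hyS : y ∈ Subgroup.closure S := by
        rw [← hB]; exact Subgroup.subset_closure hy
      refine Subgroup.closure_mono ?_ (hT2 y hyS)
      intro z hz
      simp only [Finset.coe_biUnion, Set.mem_iUnion, Finset.mem_coe, exists_prop]
      exact ⟨y, hy, hz⟩

theorem main (d : ℕ) : ∀ (n : ℕ) (G : Type) [Group G] [Group.FG G]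
    (htor : ∀ g : G, IsOfFinOrder g) (hpoly : PolyGrowth G d)
    (E : Type) [NormedAddCommGroup E] [InnerProductSpace ℂ E] [FiniteDimensional ℂ E]
    (hn : Module.finrank ℂ E = n)
    (φ : G →* (E →L[ℂ] E)) (hiso : ∀ g x, ‖φ g x‖ = ‖x‖), (Set.range φ).Finite := by
  classical
  intro n
  induction n using Nat.strong_induction_on with
  | _ n IH =>
  intro G _ _ htor hpoly E _ _ _ hn φ hiso
  set N : ℕ := 4 ^ d + 1 with hN
  have hN0 : (0 : ℝ) < (N : ℝ) := by exact_mod_cast Nat.succ_pos _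
  set ε : ℝ := 1 / (32 * N) with hε
  have hε0 : 0 < ε := by positivity
  have hNε : 16 * (N : ℝ) * ε < 1 := by rw [hε]; field_simp; norm_num
  have hfi := finite_index φ hiso hε0
  set S : Set G := {g : G | ‖φ g - 1‖ < ε} with hS
  obtain ⟨T₀, hT₀S, hT₀cl⟩ := exists_finset_closure S
  set H : Subgroup G := Subgroup.closure (T₀ : Set G) with hH
  have hHfi : H.FiniteIndex := by rw [hT₀cl]; exact hfi
  have hHfg : Group.FG H := inferInstance
  let φH : H →* (E →L[ℂ] E) := φ.comp H.subtype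
  have hisoH : ∀ g x, ‖φH g x‖ = ‖x‖ := fun g x => hiso _ _
  have htorH : ∀ g : H, IsOfFinOrder g := fun g => by
    have := htor g
    exact (H.subtype_injective.isOfFinOrder_iff (f := H.subtype)).mp this
  have hpolyH : PolyGrowth H d := PolyGrowth.sub hpoly H
  -- the finite generating set
  let T₁ : Finset H := T₀.attach.image (fun x => (⟨x.1, Subgroup.subset_closure x.2⟩ : H))
  let T : Finset H := insert 1 (T₁ ∪ T₁.image (fun x => x⁻¹))
  have h1T : (1 : H) ∈ T := Finset.mem_insert_self _ _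
  have hinv : ∀ g ∈ T, g⁻¹ ∈ T := by
    intro g hg
    simp only [T, Finset.mem_insert, Finset.mem_union, Finset.mem_image] at hg ⊢
    rcases hg with rfl | hg | ⟨a, ha, rfl⟩
    · left; simp
    · right; right; exact ⟨g, hg, rfl⟩
    · right; left; simpa using ha
  have hT₁S : ∀ g ∈ T₁, ‖φH g - 1‖ ≤ ε := by
    intro g hg
    simp only [T₁, Finset.mem_image, Finset.mem_attach, true_and, Subtype.exists] at hg
    obtain ⟨x, hx, rfl⟩ := hg
    exact (hT₀S hx).le
  have hTS : ∀ g ∈ T, ‖φH g - 1‖ ≤ ε := by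
    intro g hg
    simp only [T, Finset.mem_insert, Finset.mem_union, Finset.mem_image] at hg
    rcases hg with rfl | hg | ⟨a, ha, rfl⟩
    · rw [map_one, sub_self, norm_zero]; exact hε0.le
    · exact hT₁S g hg
    · exact (norm_inv_sub_one φH (norm_le_one φH hisoH) a).trans (hT₁S a ha)
  have hcl₁ : Subgroup.closure (T₁ : Set H) = ⊤ := by
    have h1 : Subgroup.closure ((↑) ⁻¹' (T₀ : Set G) : Set H) = ⊤ :=
      Subgroup.closure_closure_coe_preimage
    rw [← top_le_iff, ← h1]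
    apply Subgroup.closure_mono
    intro x hx
    simp only [T₁, Finset.coe_image, Set.mem_image, Finset.mem_coe, Finset.mem_attach, true_and,
      Subtype.exists]
    exact ⟨x.1, hx, rfl⟩
  have hcl : Subgroup.closure (T : Set H) = ⊤ := by
    rw [← top_le_iff, ← hcl₁]
    apply Subgroup.closure_mono
    intro x hx
    simp only [T, Finset.coe_insert, Finset.coe_union, Set.mem_insert_iff, Set.mem_union]
    exact Or.inr (Or.inl hx)
  -- finiteness of the image of `H`
  have hHfin : (Set.range φH).Finite := by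
    by_cases hB : ∀ h : H, ¬ IsScal (φH h) → ∃ g ∈ T, φH g * φH h ≠ φH h * φH g
    · by_cases hsc : ∀ g ∈ T, IsScal (φH g)
      · exact scal_finite φH T hcl htorH hsc
      · push Not at hsc
        obtain ⟨h₀, hh₀, hns⟩ := hsc
        exact absurd (chain_false φH hisoH d hpolyH T h1T hinv hε0 hNε hTS hB h₀ hh₀ hns) id
    · push Not at hB
      obtain ⟨h, hns, hcomm⟩ := hB
      have hcomm' : ∀ g : H, φH g * φH h = φH h * φH g := by
        intro g
        have hg : g ∈ Subgroup.closure (T : Set H) := by rw [hcl]; trivial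
        induction hg using Subgroup.closure_induction with
        | mem x hx => exact hcomm x hx
        | one => simp
        | mul x y _ _ hx hy => rw [map_mul, mul_assoc, hy, ← mul_assoc, hx, mul_assoc]
        | inv x _ hx =>
          have e1 : φH x⁻¹ * φH x = 1 := by rw [← map_mul, inv_mul_cancel, map_one]
          have e2 : φH x * φH x⁻¹ = 1 := by rw [← map_mul, mul_inv_cancel, map_one]
          calc φH x⁻¹ * φH h = φH x⁻¹ * φH h * (φH x * φH x⁻¹) := by rw [e2, mul_one]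
            _ = φH x⁻¹ * (φH h * φH x) * φH x⁻¹ := by simp only [mul_assoc]
            _ = φH x⁻¹ * (φH x * φH h) * φH x⁻¹ := by rw [hx]
            _ = (φH x⁻¹ * φH x) * φH h * φH x⁻¹ := by simp only [mul_assoc]
            _ = φH h * φH x⁻¹ := by rw [e1, one_mul]
      have hnt : Nontrivial E := by
        by_contra hE
        rw [not_nontrivial_iff_subsingleton] at hE
        exact hns ⟨1, by ext x; exact Subsingleton.elim _ _⟩
      obtain ⟨μ, hμ⟩ := Module.End.exists_eigenvalue (φH h : E →ₗ[ℂ] E)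
      set W : Submodule ℂ E := Module.End.eigenspace (φH h : E →ₗ[ℂ] E) μ with hWdef
      have hWbot : W ≠ ⊥ := hμ
      have hWtop : W ≠ ⊤ := by
        intro htop
        apply hns
        refine ⟨μ, ?_⟩
        ext x
        have hx : x ∈ W := by rw [htop]; trivial
        rw [hWdef, Module.End.mem_eigenspace_iff] at hx
        simpa using hx
      have hW : ∀ g, ∀ x ∈ W, φH g x ∈ W := by
        intro g x hx
        rw [hWdef, Module.End.mem_eigenspace_iff] at hx ⊢
        have h1 : φH h (φH g x) = φH g (φH h x) := by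
          have := congrArg (fun f : E →L[ℂ] E => f x) (hcomm' g)
          exact this.symm
        have h2 : φH h x = μ • x := hx
        show φH h (φH g x) = μ • φH g x
        rw [h1, h2, map_smul]
      have hlt1 : Module.finrank ℂ W < n := by
        rw [← hn]; exact Submodule.finrank_lt hWtop
      have hlt2 : Module.finrank ℂ Wᗮ < n := by
        have h1 := Submodule.finrank_add_finrank_orthogonal W
        have h2 : 0 < Module.finrank ℂ W := by
          have : Nontrivial W := Submodule.nontrivial_iff_ne_bot.mpr hWbot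
          exact Module.finrank_pos
        omega
      refine reducible φH hisoH W hW ?_
      intro V hV hVW
      have hlt : Module.finrank ℂ V < n := by
        rcases hVW with rfl | rfl
        · exact hlt1
        · exact hlt2
      refine IH _ hlt H htorH hpolyH V rfl (res φH V hV) ?_
      intro g x
      have : ‖((res φH V hV g x : V) : E)‖ = ‖(x : E)‖ := by
        rw [res_apply]; exact hisoH g x
      exact this
  -- from `H` to `G`
  have hq : Finite (G ⧸ H) := Subgroup.finite_quotient_of_finiteIndex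
  have hsub : Set.range φ ⊆ ⋃ q : G ⧸ H, (fun f => φ q.out * f) '' Set.range φH := by
    rintro _ ⟨g, rfl⟩
    rw [Set.mem_iUnion]
    refine ⟨(QuotientGroup.mk g : G ⧸ H), ?_⟩
    obtain ⟨h, hh⟩ := QuotientGroup.mk_out_eq_mul H g
    refine ⟨φH h⁻¹, ⟨h⁻¹, rfl⟩, ?_⟩
    show φ _ * φ ((h⁻¹ : H) : G) = φ g
    rw [hh, ← map_mul]
    congr 1
    simp
  exact (Set.finite_iUnion (fun q => hHfin.image _)).subset hsub

end Pool.Agent.TH719.ED.H730

namespace Pool.Agent.TH719.ED
open scoped Pointwise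

theorem unitary_torsion (d : ℕ) (G : Type) [Group G] [Group.FG G] (htor : ∀ g : G, IsOfFinOrder g)
    (hpoly : PolyGrowth G d) (E : Type) [NormedAddCommGroup E] [InnerProductSpace ℂ E]
    [FiniteDimensional ℂ E] (ρ : G →* (E ≃ₗᵢ[ℂ] E)) : (Set.range ρ).Finite := by
  let φ : G →* (E →L[ℂ] E) :=
    { toFun := fun g => ((ρ g).toContinuousLinearEquiv : E →L[ℂ] E)
      map_one' := by ext x; simp
      map_mul' := fun g h => by ext x; simp }
  have hφ : ∀ g x, φ g x = ρ g x := fun g x => rfl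
  have h1 := H730.main d _ G htor hpoly E rfl φ (fun g x => by rw [hφ]; exact (ρ g).norm_map x)
  refine Set.Finite.of_finite_image (f := fun u : E ≃ₗᵢ[ℂ] E =>
    ((u.toContinuousLinearEquiv : E →L[ℂ] E))) (h1.subset ?_) ?_
  · rintro _ ⟨_, ⟨g, rfl⟩, rfl⟩
    exact ⟨g, rfl⟩
  · intro u _ v _ huv
    ext x
    exact congrArg (fun f : E →L[ℂ] E => f x) huv

end Pool.Agent.TH719.ED
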