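import Mathlib
import Pool.Agent.TH719.ED.Defs

set_option autoImplicit false

/-!
The growth part of the argument for torsion groups of polynomial growth in unitary groups:
iterated small commutators give exponentially many products of polynomial length.
-/

namespace Pool.Agent.TH719.ED.H730

open scoped Pointwise

variable {K : Type} [Group K]

/-- products of powers from `k` on, `n` factors -/
def R (h : ℕ → K) (a : ℕ → ℕ) : ℕ → ℕ → K
  | _, 0 => 1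
  | k, n + 1 => h k ^ a k * R h a (k + 1) n

section norms

variable {A : Type*} [NormedRing A] [NormedAlgebra ℂ A] (φ : K →* A) (hφ : ∀ g, ‖φ g‖ ≤ 1)

include hφ

theorem norm_mul_sub_one (a b : K) : ‖φ (a * b) - 1‖ ≤ ‖φ a - 1‖ + ‖φ b - 1‖ := by
  have h : φ (a * b) - 1 = φ a * (φ b - 1) + (φ a - 1) := by
    rw [map_mul]; noncomm_ring
  rw [h]
  calc ‖φ a * (φ b - 1) + (φ a - 1)‖ ≤ ‖φ a * (φ b - 1)‖ + ‖φ a - 1‖ := norm_add_le _ _
    _ ≤ ‖φ a‖ * ‖φ b - 1‖ + ‖φ a - 1‖ := by gcongr; exact norm_mul_le _ _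
    _ ≤ 1 * ‖φ b - 1‖ + ‖φ a - 1‖ := by gcongr; exact hφ a
    _ = _ := by ring

theorem norm_pow_sub_one (a : K) (n : ℕ) : ‖φ (a ^ n) - 1‖ ≤ n * ‖φ a - 1‖ := by
  induction n with
  | zero => simp
  | succ n ih =>
    rw [pow_succ]
    calc _ ≤ ‖φ (a ^ n) - 1‖ + ‖φ a - 1‖ := norm_mul_sub_one φ hφ _ _
      _ ≤ n * ‖φ a - 1‖ + ‖φ a - 1‖ := by gcongr
      _ = _ := by push_cast; ring

theorem norm_inv_sub_one (a : K) : ‖φ a⁻¹ - 1‖ ≤ ‖φ a - 1‖ := by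
  have h : φ a⁻¹ - 1 = - (φ a⁻¹ * (φ a - 1)) := by
    rw [mul_sub, ← map_mul]; simp
  rw [h, norm_neg]
  calc _ ≤ ‖φ a⁻¹‖ * ‖φ a - 1‖ := norm_mul_le _ _
    _ ≤ 1 * ‖φ a - 1‖ := by gcongr; exact hφ _
    _ = _ := one_mul _

theorem norm_comm_sub_one (a b : K) :
    ‖φ (a * b * a⁻¹ * b⁻¹) - 1‖ ≤ 2 * ‖φ a - 1‖ * ‖φ b - 1‖ := by
  have h : φ (a * b * a⁻¹ * b⁻¹) - 1 =
      ((φ a - 1) * (φ b - 1) - (φ b - 1) * (φ a - 1)) * φ (a⁻¹ * b⁻¹) := by
    have e : (φ a - 1) * (φ b - 1) - (φ b - 1) * (φ a - 1) = φ (a * b) - φ (b * a) := by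
      rw [map_mul, map_mul]; noncomm_ring
    rw [e, sub_mul, ← map_mul, ← map_mul]
    congr 1
    · congr 1; group
    · rw [show b * a * (a⁻¹ * b⁻¹) = 1 by group, map_one]
  rw [h]
  calc _ ≤ ‖(φ a - 1) * (φ b - 1) - (φ b - 1) * (φ a - 1)‖ * ‖φ (a⁻¹ * b⁻¹)‖ := norm_mul_le _ _
    _ ≤ ‖(φ a - 1) * (φ b - 1) - (φ b - 1) * (φ a - 1)‖ * 1 := by gcongr; exact hφ _
    _ ≤ (‖(φ a - 1) * (φ b - 1)‖ + ‖(φ b - 1) * (φ a - 1)‖) * 1 := by
        gcongr; exact norm_sub_le _ _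
    _ ≤ (‖φ a - 1‖ * ‖φ b - 1‖ + ‖φ b - 1‖ * ‖φ a - 1‖) * 1 := by
        gcongr <;> exact norm_mul_le _ _
    _ = _ := by ring

/-- the lower bound for powers -/
theorem norm_pow_sub_one_ge (a : K) (n : ℕ) {N ε : ℝ} (hn : (n : ℝ) ≤ N)
    (hN : N * ε ≤ 1 / 2) (ha : ‖φ a - 1‖ ≤ ε) :
    n * ‖φ a - 1‖ / 2 ≤ ‖φ (a ^ n) - 1‖ := by
  have key : ∀ n : ℕ, ‖(φ (a ^ n) - 1) - (n : A) * (φ a - 1)‖ ≤
      n * (n : ℝ) * ‖φ a - 1‖ * ‖φ a - 1‖ := by
    intro n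
    induction n with
    | zero => simp
    | succ n ih =>
      have e : (φ (a ^ (n + 1)) - 1) - ((n + 1 : ℕ) : A) * (φ a - 1) =
          ((φ (a ^ n) - 1) - (n : A) * (φ a - 1)) + (φ (a ^ n) - 1) * (φ a - 1) := by
        rw [pow_succ, map_mul]; push_cast; noncomm_ring
      rw [e]
      calc _ ≤ ‖(φ (a ^ n) - 1) - (n : A) * (φ a - 1)‖ + ‖(φ (a ^ n) - 1) * (φ a - 1)‖ :=
            norm_add_le _ _
        _ ≤ n * (n : ℝ) * ‖φ a - 1‖ * ‖φ a - 1‖ + ‖φ (a ^ n) - 1‖ * ‖φ a - 1‖ := by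
            gcongr; exact norm_mul_le _ _
        _ ≤ n * (n : ℝ) * ‖φ a - 1‖ * ‖φ a - 1‖ + (n * ‖φ a - 1‖) * ‖φ a - 1‖ := by
            gcongr; exact norm_pow_sub_one φ hφ a n
        _ ≤ _ := by
            push_cast
            have := mul_nonneg (norm_nonneg (φ a - 1)) (norm_nonneg (φ a - 1))
            have hn0 : (0 : ℝ) ≤ n := n.cast_nonneg
            nlinarith
  have h2 : ‖(n : A) * (φ a - 1)‖ ≤ ‖(φ (a ^ n) - 1)‖ + n * (n : ℝ) * ‖φ a - 1‖ * ‖φ a - 1‖ := by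
    have e : (n : A) * (φ a - 1) = (φ (a ^ n) - 1) - ((φ (a ^ n) - 1) - (n : A) * (φ a - 1)) := by
      noncomm_ring
    calc ‖(n : A) * (φ a - 1)‖
        = ‖(φ (a ^ n) - 1) - ((φ (a ^ n) - 1) - (n : A) * (φ a - 1))‖ := by rw [← e]
      _ ≤ ‖(φ (a ^ n) - 1)‖ + ‖(φ (a ^ n) - 1) - (n : A) * (φ a - 1)‖ := norm_sub_le _ _
      _ ≤ _ := by gcongr; exact key n
  have h3 : ‖(n : A) * (φ a - 1)‖ = n * ‖φ a - 1‖ := by
    have : (n : A) * (φ a - 1) = (n : ℂ) • (φ a - 1) := by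
      rw [Nat.cast_smul_eq_nsmul, nsmul_eq_mul]
    rw [this, norm_smul]; simp
  rw [h3] at h2
  have h4 : n * (n : ℝ) * ‖φ a - 1‖ * ‖φ a - 1‖ ≤ n * ‖φ a - 1‖ * (1 / 2) := by
    have : (n : ℝ) * ‖φ a - 1‖ ≤ 1 / 2 := by
      calc (n : ℝ) * ‖φ a - 1‖ ≤ N * ε := by
            have hn0 : (0 : ℝ) ≤ n := n.cast_nonneg
            have := norm_nonneg (φ a - 1)
            nlinarith
        _ ≤ _ := hN
    calc n * (n : ℝ) * ‖φ a - 1‖ * ‖φ a - 1‖ = (n * ‖φ a - 1‖) * (n * ‖φ a - 1‖) := by ring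
      _ ≤ _ := by gcongr
  linarith

/-- the products of powers of the terms from `k` on are close to `1` -/
theorem norm_R_sub_one (h : ℕ → K) {ε : ℝ} (h4 : 4 * ε ≤ 1) {N : ℕ}
    (hst : ∀ i, ‖φ (h (i + 1)) - 1‖ ≤ 2 * ε * ‖φ (h i) - 1‖) (a : ℕ → ℕ) (ha : ∀ i, a i < N)
    (n k : ℕ) : ‖φ (R h a k n) - 1‖ ≤ 2 * N * ‖φ (h k) - 1‖ := by
  induction n generalizing k with
  | zero => simp only [R, map_one, sub_self, norm_zero]; positivity
  | succ n ih =>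
    rw [R]
    calc _ ≤ ‖φ (h k ^ a k) - 1‖ + ‖φ (R h a (k + 1) n) - 1‖ := norm_mul_sub_one φ hφ _ _
      _ ≤ a k * ‖φ (h k) - 1‖ + 2 * N * ‖φ (h (k + 1)) - 1‖ := by
          gcongr
          · exact norm_pow_sub_one φ hφ _ _
          · exact ih _
      _ ≤ N * ‖φ (h k) - 1‖ + 2 * N * (2 * ε * ‖φ (h k) - 1‖) := by
          gcongr
          · exact_mod_cast (ha k).le
          · exact hst k
      _ ≤ _ := by
          have : (0 : ℝ) ≤ N * ‖φ (h k) - 1‖ := by positivity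
          nlinarith

/-- the products of powers are pairwise different -/
theorem R_inj (h : ℕ → K) {ε : ℝ} (hε : 0 < ε) {N : ℕ} (hNε : 16 * N * ε < 1)
    (h1 : ∀ i, 0 < ‖φ (h i) - 1‖) (h2 : ∀ i, ‖φ (h i) - 1‖ ≤ ε)
    (hst : ∀ i, ‖φ (h (i + 1)) - 1‖ ≤ 2 * ε * ‖φ (h i) - 1‖) (a b : ℕ → ℕ)
    (ha : ∀ i, a i < N) (hb : ∀ i, b i < N) (n k : ℕ) (hab : R h a k n = R h b k n) :
    ∀ j, k ≤ j → j < k + n → a j = b j := by
  have hN1 : 1 ≤ N := by have := ha 0; omega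
  have hN1' : (1 : ℝ) ≤ N := by exact_mod_cast hN1
  have hε4 : 4 * ε ≤ 1 := by nlinarith
  have main : ∀ a b : ℕ → ℕ, (∀ i, a i < N) → (∀ i, b i < N) → ∀ n k,
      R h a k (n + 1) = R h b k (n + 1) → b k ≤ a k → ¬ b k < a k := by
    intro a b ha hb n k hab hle hlt
    set Δ := a k - b k with hΔ
    have e1 : h k ^ Δ * R h a (k + 1) n = R h b (k + 1) n := by
      rw [R, R] at hab
      have : h k ^ a k = h k ^ b k * h k ^ Δ := by rw [← pow_add]; congr 1; omega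
      rw [this, mul_assoc] at hab
      exact mul_left_cancel hab
    have e2 : φ (h k ^ Δ) - 1 = φ (h k ^ Δ) * (1 - φ (R h a (k + 1) n)) +
        (φ (R h b (k + 1) n) - 1) := by
      rw [← e1, map_mul]; noncomm_ring
    have e3 : ‖φ (h k ^ Δ) - 1‖ ≤ ‖φ (R h a (k + 1) n) - 1‖ + ‖φ (R h b (k + 1) n) - 1‖ := by
      calc _ = ‖φ (h k ^ Δ) * (1 - φ (R h a (k + 1) n)) + (φ (R h b (k + 1) n) - 1)‖ := by
            rw [← e2]
        _ ≤ ‖φ (h k ^ Δ) * (1 - φ (R h a (k + 1) n))‖ + ‖φ (R h b (k + 1) n) - 1‖ :=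
            norm_add_le _ _
        _ ≤ ‖φ (h k ^ Δ)‖ * ‖1 - φ (R h a (k + 1) n)‖ + ‖φ (R h b (k + 1) n) - 1‖ := by
            gcongr; exact norm_mul_le _ _
        _ ≤ 1 * ‖1 - φ (R h a (k + 1) n)‖ + ‖φ (R h b (k + 1) n) - 1‖ := by
            gcongr; exact hφ _
        _ = _ := by rw [norm_sub_rev]; ring
    have e4 := norm_R_sub_one φ hφ h hε4 hst a ha n (k + 1)
    have e5 := norm_R_sub_one φ hφ h hε4 hst b hb n (k + 1)
    have e6 := norm_pow_sub_one_ge φ hφ (h k) Δ (N := N) (ε := ε)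
      (by have := ha k; exact_mod_cast (by omega : Δ ≤ N)) (by nlinarith) (h2 k)
    have hΔ1 : (1 : ℝ) ≤ Δ := by exact_mod_cast (by omega : 1 ≤ Δ)
    have e7 := hst k
    have hk := h1 k
    have e8 : 1 / 2 * ‖φ (h k) - 1‖ ≤ 4 * N * ‖φ (h (k + 1)) - 1‖ := by
      have : 1 * ‖φ (h k) - 1‖ ≤ Δ * ‖φ (h k) - 1‖ := by gcongr
      linarith
    have e9 : 4 * N * ‖φ (h (k + 1)) - 1‖ ≤ 4 * N * (2 * ε * ‖φ (h k) - 1‖) := by gcongr
    have e10 : 4 * N * (2 * ε * ‖φ (h k) - 1‖) < 1 / 2 * ‖φ (h k) - 1‖ := by nlinarith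
    linarith
  have main2 : ∀ a b : ℕ → ℕ, (∀ i, a i < N) → (∀ i, b i < N) → ∀ n k,
      R h a k (n + 1) = R h b k (n + 1) → a k = b k := by
    intro a b ha hb n k hab
    rcases lt_trichotomy (a k) (b k) with h | h | h
    · exact absurd h (main b a hb ha n k hab.symm h.le)
    · exact h
    · exact absurd h (main a b ha hb n k hab h.le)
  induction n generalizing k with
  | zero => intro j h1 h2; omega
  | succ n ih =>
    intro j h1 h2
    have hk := main2 a b ha hb n k hab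
    rcases Nat.eq_or_lt_of_le h1 with h | h
    · rw [← h]; exact hk
    · refine ih (k + 1) ?_ j h (by omega)
      rw [R, R, hk] at hab
      exact mul_left_cancel hab

end norms

/-- lengths of the products of powers -/
theorem R_mem (T : Set K) (h : ℕ → K) (hT : ∀ i, h i ∈ T ^ (4 ^ i)) (a : ℕ → ℕ)
    {N : ℕ} (ha : ∀ i, a i < N) (n k : ℕ) :
    ∃ L, L + N * 4 ^ k ≤ N * 4 ^ (k + n) ∧ R h a k n ∈ T ^ L := by
  induction n generalizing k with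
  | zero => exact ⟨0, by simp, by simp [R]⟩
  | succ n ih =>
    obtain ⟨L, hL, hm⟩ := ih (k + 1)
    have e1 : h k ^ a k ∈ T ^ (4 ^ k * a k) := by
      rw [pow_mul]
      exact Set.pow_mem_pow (hT k)
    have e2 := Set.mul_mem_mul e1 hm
    rw [← pow_add] at e2
    refine ⟨4 ^ k * a k + L, ?_, e2⟩
    have h3 : 4 ^ k * a k ≤ N * 4 ^ k := by
      rw [mul_comm]; exact Nat.mul_le_mul_right _ (ha k).le
    have h4 : N * 4 ^ (k + 1) = 4 * (N * 4 ^ k) := by ring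
    rw [show k + (n + 1) = k + 1 + n by ring]
    omega

/-- no exponential growth by small commutators in a group of polynomial growth -/
theorem no_chain {A : Type*} [NormedRing A] [NormedAlgebra ℂ A] (φ : K →* A)
    (hφ : ∀ g, ‖φ g‖ ≤ 1) (d : ℕ) (hpoly : PolyGrowth K d) (T : Finset K) (h1T : 1 ∈ T)
    {ε : ℝ} (hε : 0 < ε) (hNε : 16 * ((4 ^ d + 1 : ℕ) : ℝ) * ε < 1) (h : ℕ → K)
    (hT : ∀ i, h i ∈ (T : Set K) ^ (4 ^ i)) (hne : ∀ i, φ (h i) ≠ 1) (h0 : ‖φ (h 0) - 1‖ ≤ ε)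
    (hst : ∀ i, ‖φ (h (i + 1)) - 1‖ ≤ 2 * ε * ‖φ (h i) - 1‖) : False := by
  classical
  set N : ℕ := 4 ^ d + 1 with hN
  obtain ⟨C, hC⟩ := hpoly T
  have hN1 : 1 ≤ N := Nat.succ_le_succ (Nat.zero_le _)
  have hN1' : (1 : ℝ) ≤ N := by exact_mod_cast hN1
  have hε4 : 4 * ε ≤ 1 := by nlinarith
  have h1 : ∀ i, 0 < ‖φ (h i) - 1‖ := fun i => norm_pos_iff.mpr (sub_ne_zero.mpr (hne i))
  have h2 : ∀ i, ‖φ (h i) - 1‖ ≤ ε := by
    intro i
    induction i with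
    | zero => exact h0
    | succ i ih =>
      refine (hst i).trans ?_
      have := h1 i
      nlinarith
  have count : ∀ m : ℕ, N ^ m ≤ C * (N * 4 ^ m + 1) ^ d := by
    intro m
    refine le_trans ?_ (hC (N * 4 ^ m))
    let ext : (Fin m → Fin N) → ℕ → ℕ := fun a j => if hj : j < m then (a ⟨j, hj⟩ : ℕ) else 0
    have hext : ∀ a i, ext a i < N := by
      intro a i
      simp only [ext]
      split
      · exact Fin.is_lt _
      · omega
    have hinj : Function.Injective (fun a : Fin m → Fin N => R h (ext a) 0 m) := by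
      intro a b hab
      have := R_inj φ hφ h hε hNε h1 h2 hst (ext a) (ext b) (hext a) (hext b) m 0 hab
      funext j
      have hj := this j (Nat.zero_le _) (by have := j.2; omega)
      simp only [ext, j.2, dif_pos] at hj
      exact Fin.ext hj
    have hsub : Set.range (fun a : Fin m → Fin N => R h (ext a) 0 m) ⊆
        (T : Set K) ^ (N * 4 ^ m) := by
      rintro _ ⟨a, rfl⟩
      obtain ⟨L, hL, hm⟩ := R_mem (T : Set K) h hT (ext a) (hext a) m 0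
      refine Set.pow_subset_pow_right (by exact_mod_cast h1T) ?_ hm
      simp only [zero_add] at hL
      omega
    have hfin : ((T : Set K) ^ (N * 4 ^ m)).Finite := by
      rw [← Finset.coe_pow]; exact Finset.finite_toSet _
    calc N ^ m = Nat.card (Fin m → Fin N) := by simp
      _ = (Set.range (fun a : Fin m → Fin N => R h (ext a) 0 m)).ncard := by
          rw [← Nat.card_range_of_injective hinj]
          rfl
      _ ≤ _ := Set.ncard_le_ncard hsub hfin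
  -- contradiction
  have hlt : (1 : ℝ) < (N : ℝ) / 4 ^ d := by
    rw [lt_div_iff₀ (by positivity)]
    rw [hN]; push_cast; linarith
  obtain ⟨m, hm⟩ := pow_unbounded_of_one_lt ((C : ℝ) * (N + 1) ^ d) hlt
  have hc := count m
  have hc' : (N : ℝ) ^ m ≤ C * ((N * 4 ^ m + 1) ^ d) := by exact_mod_cast hc
  have h5 : ((N : ℝ) * 4 ^ m + 1) ^ d ≤ ((N + 1) * 4 ^ m) ^ d := by
    gcongr
    have : (1 : ℝ) ≤ 4 ^ m := one_le_pow₀ (by norm_num)
    linarith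
  have h6 : ((N : ℝ) + 1) ^ d * ((4 : ℝ) ^ m) ^ d = ((N + 1) * 4 ^ m) ^ d := by rw [mul_pow]
  rw [div_pow, lt_div_iff₀ (by positivity)] at hm
  have h7 : ((4 : ℝ) ^ m) ^ d = (4 ^ d) ^ m := by rw [← pow_mul, ← pow_mul, mul_comm]
  have h8 : (C : ℝ) * ((N * 4 ^ m + 1) ^ d) ≤ C * (((N + 1) * 4 ^ m) ^ d) := by gcongr
  rw [← h6, h7] at h8
  linarith

end Pool.Agent.TH719.ED.H730
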